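import Mathlib
import Pool.Agent.H18.Cage.Main

set_option autoImplicit false

open Finset

namespace Pool.Agent.Results.MP_335cf6_co.ExcessTendsToInfinity

/-- The Moore bound `M(k,g)` for `g ≥ 3`: `2 (1 + (k-1) + ... + (k-1)^(g/2-1))` for even `g`,
`1 + k (1 + (k-1) + ... + (k-1)^((g-3)/2))` for odd `g`. -/
def moore (k g : ℕ) : ℕ :=
  if Even g then 2 * ∑ i ∈ Finset.range (g / 2), (k - 1) ^ i
  else 1 + k * ∑ i ∈ Finset.range ((g - 1) / 2), (k - 1) ^ i

/-- The proof of the main theorem for graphs on `Fin n` of girth exactly `g`. -/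
lemma core (c : ℕ) : ∃ g₀ : ℕ, ∀ g : ℕ, g₀ ≤ g → ∀ (n : ℕ) (G : SimpleGraph (Fin n))
    [DecidableRel G.Adj], G.IsRegularOfDegree 5 → G.girth = g → moore 5 g + c < n := by
  obtain ⟨r1, h1⟩ := Pool.Agent.H18.Cage.setup_odd c
  obtain ⟨r2, h2⟩ := Pool.Agent.H18.Cage.setup_even c
  obtain ⟨r3, h3⟩ := Pool.Agent.H18.Cage.no_setup (5 * c)
  refine ⟨2 * (r1 + r2 + r3) + 10, ?_⟩
  intro g hlt n G inst hreg hgirth
  by_contra hn
  rw [not_lt] at hn
  unfold moore at hn
  by_cases hev : Even g
  · obtain ⟨m, hm⟩ := hev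
    have hr : g = 2 * (m - 1) + 2 := by omega
    have hn' : n ≤ 2 * ∑ i ∈ range ((m - 1) + 1), 4 ^ i + c := by
      have : Even g := ⟨m, hm⟩
      rw [if_pos this] at hn
      have h5 : g / 2 = (m - 1) + 1 := by omega
      rw [h5] at hn
      exact hn
    obtain ⟨E, hE⟩ := h2 n (m - 1) G (by omega) hreg (by omega) hn'
    exact h3 (Fin n) G 4 (m - 1) E (by omega) hE
  · obtain ⟨m, hm⟩ := Nat.not_even_iff_odd.mp hev
    have hn' : n ≤ 1 + 5 * ∑ i ∈ range ((m - 1) + 1), 4 ^ i + c := by
      rw [if_neg hev] at hn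
      have h5 : (g - 1) / 2 = (m - 1) + 1 := by omega
      rw [h5] at hn
      exact hn
    obtain ⟨E, hE⟩ := h1 n (m - 1) G (by omega) hreg (by omega) hn'
    exact h3 (Fin n) G 0 (m - 1) E (by omega) hE

lemma moore_succ (g : ℕ) (hg : 3 ≤ g) : moore 5 g ≤ moore 5 (g + 1) := by
  rcases Nat.even_or_odd' g with ⟨m, rfl | rfl⟩
  · have he : Even (2 * m) := even_two_mul m
    have ho : ¬ Even (2 * m + 1) := by
      rw [Nat.not_even_iff_odd]; exact odd_two_mul_add_one m
    unfold moore
    rw [if_pos he, if_neg ho]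
    have e1 : 2 * m / 2 = m := by omega
    have e2 : (2 * m + 1 - 1) / 2 = m := by omega
    rw [e1, e2]
    nlinarith [Nat.zero_le (∑ i ∈ Finset.range m, (5 - 1) ^ i)]
  · have ho : ¬ Even (2 * m + 1) := by
      rw [Nat.not_even_iff_odd]; exact odd_two_mul_add_one m
    have he : Even (2 * m + 1 + 1) := by
      have : 2 * m + 1 + 1 = 2 * (m + 1) := by ring
      rw [this]; exact even_two_mul _
    unfold moore
    rw [if_neg ho, if_pos he]
    have e1 : (2 * m + 1 - 1) / 2 = m := by omega
    have e2 : (2 * m + 1 + 1) / 2 = m + 1 := by omega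
    rw [e1, e2]
    have h : ∀ m : ℕ, 3 * ∑ i ∈ Finset.range m, 4 ^ i + 1 = 4 ^ m := by
      intro m
      induction m with
      | zero => simp
      | succ m ih => rw [Finset.sum_range_succ, pow_succ]; omega
    have h1 := h m
    rw [Finset.sum_range_succ]
    have e3 : (5 - 1 : ℕ) = 4 := rfl
    simp only [e3] at *
    omega

lemma moore_mono {g g' : ℕ} (hg : 3 ≤ g) (h : g ≤ g') : moore 5 g ≤ moore 5 g' := by
  induction g', h using Nat.le_induction with
  | base => exact le_rfl
  | succ n hn ih => exact ih.trans (moore_succ n (by omega))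

/-- A finite nonempty graph in which all degrees are `5` has a cycle. -/
lemma not_acyclic {V : Type} [Fintype V] [Nonempty V] (G : SimpleGraph V) [DecidableRel G.Adj]
    (h : G.IsRegularOfDegree 5) : ¬ G.IsAcyclic := by
  classical
  intro hG
  obtain ⟨T, hT, -, hT3⟩ := (SimpleGraph.connected_top (V := V)).exists_isTree_le_of_le_of_isAcyclic
    (le_top : G ≤ ⊤) hG
  have h1 := hT3.card_edgeFinset
  have h2 : G.edgeFinset.card ≤ T.edgeFinset.card :=
    Finset.card_le_card (SimpleGraph.edgeFinset_mono hT)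
  have h3 := G.sum_degrees_eq_twice_card_edges
  have h4 : ∑ v, G.degree v = Fintype.card V * 5 := by
    rw [Finset.sum_congr rfl (fun v _ => h v)]
    simp
  have h5 : 0 < Fintype.card V := Fintype.card_pos
  omega

/-- For every constant `c` there is `g₀` such that for all `g ≥ g₀` every finite nonempty simple
graph in which every vertex has exactly five neighbours and every cycle has length at least `g`
has more than `M(5,g) + c` vertices. -/
theorem result :
    ∀ c : ℕ, ∃ g₀ : ℕ, ∀ g : ℕ, g₀ ≤ g → ∀ (V : Type) [Fintype V] [Nonempty V]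
      (G : SimpleGraph V), (∀ v : V, (G.neighborSet v).ncard = 5) →
      (∀ (v : V) (w : G.Walk v v), w.IsCycle → g ≤ w.length) →
      moore 5 g + c < Fintype.card V := by
  intro c
  obtain ⟨g₀, h₀⟩ := core c
  refine ⟨g₀ + 3, ?_⟩
  intro g hg V _ _ G hdeg hcyc
  classical
  have hreg : G.IsRegularOfDegree 5 := by
    intro v
    rw [← SimpleGraph.card_neighborSet_eq_degree, ← Nat.card_eq_fintype_card]
    exact hdeg v
  have hac := not_acyclic G hreg
  have hgg : g ≤ G.girth := by
    obtain ⟨a, w, hw, hl⟩ := SimpleGraph.exists_girth_eq_length.mpr hac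
    rw [hl]
    exact hcyc a w hw
  set H := G.overFin (rfl : Fintype.card V = Fintype.card V) with hH
  have f : G ≃g H := G.overFinIso rfl
  have hreg' : H.IsRegularOfDegree 5 := by
    intro x
    obtain ⟨v, rfl⟩ := f.surjective x
    rw [f.degree_eq]
    exact hreg v
  have h1 := h₀ G.girth (by omega) (Fintype.card V) H hreg' f.girth_eq.symm
  have h2 := moore_mono (g := g) (g' := G.girth) (by omega) hgg
  omega

end Pool.Agent.Results.MP_335cf6_co.ExcessTendsToInfinity
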